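import Mathlib
import Pool.Agent.H99.NC.SuperP
import Pool.Agent.H99.NC.Prob
import Pool.Agent.H75.TwoArm.Decay

set_option autoImplicit false
open Finset

/-! Exponential decay below the critical density, in units of the scale `N` at which the long
rectangles are crossed in the dual: `P_p(0 ↔ distance n) ≤ (1/2)^(n/(4N))` if
`1 - P_{1-p}(long crossing of 2N × (N-1)) ≤ 1/50`. -/

namespace Pool.Agent.H9.NC

open Pool.Agent.H75.Perc Pool.Agent.H75.TwoArm Pool.Agent.H75.TwoArm.DecayAux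
open Pool.Agent.H69.NC (PQ dq PQ_eq PQ_du)
open Pool.Agent.H99.NC
open Pool.Agent.H63.Bulk (planeGraph OneArm)
open Pool.Agent.H65.Perc (PConf)

/-- The crossing probabilities converge to one doubly exponentially. -/
lemma all_scales_strong {p : ℝ} (p0 : 0 ≤ p) (p1 : p ≤ 1) {N : ℤ} (hN : 1 ≤ N)
    (h : 1 - fcP p (2 * N) (N - 1) ≤ 1 / 50) (j : ℕ) :
    25 * (1 - fcP p (2 * (2 ^ j * N)) (2 ^ j * N - 1)) ≤ (1 / 2) ^ (2 ^ j) := by
  induction j with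
  | zero => norm_num at h ⊢; linarith
  | succ j ih =>
    have h2 : (1 : ℤ) ≤ 2 ^ j * N := by
      have : (1 : ℤ) ≤ 2 ^ j := one_le_pow₀ (by norm_num)
      nlinarith
    have h1 := doubling p0 p1 h2
    have e1 : 4 * (2 ^ j * N) = 2 * (2 ^ (j + 1) * N) := by ring
    have e2 : 2 * (2 ^ j * N) - 1 = 2 ^ (j + 1) * N - 1 := by ring
    rw [e1, e2] at h1
    have h3 : 0 ≤ 25 * (1 - fcP p (2 * (2 ^ j * N)) (2 ^ j * N - 1)) := by
      linarith [fcP_le_one p0 p1 (2 * (2 ^ j * N)) (2 ^ j * N - 1)]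
    have h4 := pow_le_pow_left₀ h3 ih 2
    have e3 : (((1 : ℝ) / 2) ^ (2 ^ j)) ^ 2 = (1 / 2) ^ (2 ^ (j + 1)) := by
      rw [← pow_mul, ← pow_succ]
    rw [e3] at h4
    nlinarith

/-- One minus the crossing probability of the sides of the annulus. -/
lemma side_le {s : ℝ} (s0 : 0 ≤ s) (s1 : s ≤ 1) {m : ℤ} (hm : 1 ≤ m) :
    1 - fcP s (8 * m - 1) (3 * m - 1) ≤ 5 * (1 - fcP s (4 * m) (2 * m - 1)) := by
  have a1 := fcP_anti s0 s1 (w := 8 * m) (w' := 8 * m - 1) (h := 3 * m - 1) (by omega) (by omega)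
  have a2 := fcP_mono s0 s1 (w := 8 * m) (h := 2 * m - 1) (h' := 3 * m - 1) (by omega)
  have h3 := fcP_glue' s0 s1 (w1 := 4 * m) (w2 := 4 * m) (v := 2 * m) (h := 2 * m - 1) (by omega)
    (by omega) (by omega)
  have h4 := fcP_glue' s0 s1 (w1 := 6 * m) (w2 := 4 * m) (v := 2 * m) (h := 2 * m - 1) (by omega)
    (by omega) (by omega)
  have e1 : 4 * m + 4 * m - 2 * m = 6 * m := by ring
  have e2 : 6 * m + 4 * m - 2 * m = 8 * m := by ring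
  rw [e1] at h3
  rw [e2] at h4
  have b1 := fcP_anti s0 s1 (w := 4 * m) (w' := 2 * m - 1) (h := 2 * m) (by omega) (by omega)
  have b2 := fcP_mono s0 s1 (w := 4 * m) (h := 2 * m - 1) (h' := 2 * m) (by omega)
  linarith

/-- The open arm through the annulus blocks one of the four dual crossings. -/
lemma arm_le {p : ℝ} (p0 : 0 ≤ p) (p1 : p ≤ 1) {m : ℕ} (hm : 1 ≤ m) :
    PrP (fun _ => p) (Bx (-((4 * m : ℕ) : ℤ)) ((4 * m : ℕ) : ℤ) (-((4 * m : ℕ) : ℤ)) ((4 * m : ℕ) : ℤ))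
      (armF (4 * m)) ≤ 4 * (1 - fcP (1 - p) (8 * m - 1) (3 * m - 1)) := by
  have s0 : 0 ≤ 1 - p := by linarith
  have s1 : 1 - p ≤ 1 := by linarith
  have hs := cp_Pb s0 s1
  set E := Bx (-((4 * m : ℕ) : ℤ)) ((4 * m : ℕ) : ℤ) (-((4 * m : ℕ) : ℤ)) ((4 * m : ℕ) : ℤ) with hE
  have hmz : (1 : ℤ) ≤ m := by exact_mod_cast hm
  have h1 : PrP (fun _ => p) E (armF (4 * m)) ≤
      PrP (fun _ => p) E (fun ω => ¬ DecayAux.GG (0, 0) m (du E ω)) := by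
    refine PrP_mono (cp_Pb p0 p1) fun ω _ h => ?_
    obtain ⟨v, hv, hc⟩ := h
    refine not_GG (u := (0, 0)) hmz (by simp) (by simp) ?_ hc
    push_cast at hv
    simp only [sub_zero]
    omega
  refine h1.trans ?_
  rw [← PQ_eq, PQ_du (fun _ => p) E (fun η => ¬ DecayAux.GG (0, 0) m η)]
  have e1 : dq (fun _ : ℤ × ℤ => p) = cp (1 - p) := rfl
  rw [e1, PQ_eq]
  have hsub : ∀ a b c d : ℤ, -(4 * (m : ℤ)) + 1 ≤ a → b ≤ 4 * m → -(4 * (m : ℤ)) + 1 ≤ c → d ≤ 4 * m →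
      Bx a b c d ⊆ E.map sh1 := by
    intro a b c d ha hb hc hd l hl
    rw [mem_map]
    refine ⟨(l.1 - 1, l.2 - 1), ?_, ?_⟩
    · rw [hE, mem_Bx]
      rw [mem_Bx] at hl
      push_cast
      omega
    · refine Prod.ext ?_ ?_ <;> simp [sh1]
  set F := E.map sh1 with hF
  have g1 : PrP (cp (1 - p)) F (fun η => ¬ VC (m + 1) (4 * m) (-(4 * (m : ℤ)) + 1) (4 * m) η) =
      1 - fcP (1 - p) (8 * m - 1) (3 * m - 1) := by
    rw [PrP_not, PrP_VC _ (hsub _ _ _ _ (by omega) le_rfl le_rfl le_rfl)]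
    congr 2 <;> ring
  have g2 : PrP (cp (1 - p)) F (fun η => ¬ VC (-(4 * (m : ℤ)) + 1) (-m) (-(4 * (m : ℤ)) + 1) (4 * m) η) =
      1 - fcP (1 - p) (8 * m - 1) (3 * m - 1) := by
    rw [PrP_not, PrP_VC _ (hsub _ _ _ _ le_rfl (by omega) le_rfl le_rfl)]
    congr 2 <;> ring
  have g3 : PrP (cp (1 - p)) F (fun η => ¬ HC (-(4 * (m : ℤ)) + 1) (4 * m) (m + 1) (4 * m) η) =
      1 - fcP (1 - p) (8 * m - 1) (3 * m - 1) := by
    rw [PrP_not, PrP_HC' _ (hsub _ _ _ _ le_rfl le_rfl (by omega) le_rfl)]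
    congr 2 <;> ring
  have g4 : PrP (cp (1 - p)) F (fun η => ¬ HC (-(4 * (m : ℤ)) + 1) (4 * m) (-(4 * (m : ℤ)) + 1) (-m) η) =
      1 - fcP (1 - p) (8 * m - 1) (3 * m - 1) := by
    rw [PrP_not, PrP_HC' _ (hsub _ _ _ _ le_rfl le_rfl le_rfl (by omega))]
    congr 2 <;> ring
  have hle : PrP (cp (1 - p)) F (fun η => ¬ DecayAux.GG (0, 0) m η) ≤
      PrP (cp (1 - p)) F (fun η => ¬ VC (m + 1) (4 * m) (-(4 * (m : ℤ)) + 1) (4 * m) η ∨
        ¬ VC (-(4 * (m : ℤ)) + 1) (-m) (-(4 * (m : ℤ)) + 1) (4 * m) η ∨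
        ¬ HC (-(4 * (m : ℤ)) + 1) (4 * m) (m + 1) (4 * m) η ∨
        ¬ HC (-(4 * (m : ℤ)) + 1) (4 * m) (-(4 * (m : ℤ)) + 1) (-m) η) := by
    refine PrP_mono hs fun η _ h => ?_
    by_contra hcon
    push Not at hcon
    apply h
    unfold DecayAux.GG
    simp only [zero_add, zero_sub]
    exact hcon
  have k1 := PrP_or_le hs F (fun η => ¬ VC (m + 1) (4 * m) (-(4 * (m : ℤ)) + 1) (4 * m) η)
    (fun η => ¬ VC (-(4 * (m : ℤ)) + 1) (-m) (-(4 * (m : ℤ)) + 1) (4 * m) η ∨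
        ¬ HC (-(4 * (m : ℤ)) + 1) (4 * m) (m + 1) (4 * m) η ∨
        ¬ HC (-(4 * (m : ℤ)) + 1) (4 * m) (-(4 * (m : ℤ)) + 1) (-m) η)
  have k2 := PrP_or_le hs F (fun η => ¬ VC (-(4 * (m : ℤ)) + 1) (-m) (-(4 * (m : ℤ)) + 1) (4 * m) η)
    (fun η => ¬ HC (-(4 * (m : ℤ)) + 1) (4 * m) (m + 1) (4 * m) η ∨
        ¬ HC (-(4 * (m : ℤ)) + 1) (4 * m) (-(4 * (m : ℤ)) + 1) (-m) η)
  have k3 := PrP_or_le hs F (fun η => ¬ HC (-(4 * (m : ℤ)) + 1) (4 * m) (m + 1) (4 * m) η)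
    (fun η => ¬ HC (-(4 * (m : ℤ)) + 1) (4 * m) (-(4 * (m : ℤ)) + 1) (-m) η)
  rw [g1] at k1
  rw [g2] at k2
  rw [g3, g4] at k3
  linarith

/-- **Exponential decay below the critical density**, with an explicit scale: `N` is any scale at
which the dual crosses the rectangle `2N × (N-1)` the long way with probability at least `49/50`. -/
theorem oneArm_exp {p : ℝ} (p0 : 0 ≤ p) (p1 : p ≤ 1) {N : ℕ} (hN : 1 ≤ N)
    (h : 1 - fcP (1 - p) (2 * N) (N - 1) ≤ 1 / 50) (n : ℕ) :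
    (planeP p {ω | OneArm n ω}).toReal ≤ (1 / 2) ^ (n / (4 * N)) := by
  have hpr := planeP_prob p0 p1
  have s0 : 0 ≤ 1 - p := by linarith
  have s1 : 1 - p ≤ 1 := by linarith
  rcases Nat.eq_zero_or_pos (n / (4 * N)) with hk | hk
  · rw [hk, pow_zero]
    exact ENNReal.toReal_le_of_le_ofReal zero_le_one (by simpa using MeasureTheory.prob_le_one)
  set k := n / (4 * N) with hkdef
  set j := Nat.log 2 k with hj
  have hj1 : 2 ^ j ≤ k := Nat.pow_log_le_self 2 hk.ne'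
  have hj2 : k < 2 ^ (j + 1) := Nat.lt_pow_succ_log_self (by norm_num) k
  have hm1 : 1 ≤ 2 ^ j * N := Nat.mul_pos (by positivity) hN
  have hle : 4 * (2 ^ j * N) ≤ n := by
    have h1 : k * (4 * N) ≤ n := Nat.div_mul_le_self n (4 * N)
    calc 4 * (2 ^ j * N) = 2 ^ j * (4 * N) := by ring
      _ ≤ k * (4 * N) := Nat.mul_le_mul_right _ hj1
      _ ≤ n := h1
  have h1 : (planeP p {ω | OneArm n ω}).toReal ≤ (planeP p {ω | OneArm (4 * (2 ^ j * N)) ω}).toReal := by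
    refine ENNReal.toReal_mono (MeasureTheory.measure_ne_top _ _) (MeasureTheory.measure_mono ?_)
    intro ω hω
    exact oneArm_anti hle hω
  rw [oneArm_PrP p0 p1 (4 * (2 ^ j * N))] at h1
  have h2 := arm_le p0 p1 hm1
  have hmz : (1 : ℤ) ≤ ((2 ^ j * N : ℕ) : ℤ) := by exact_mod_cast hm1
  have h3 := side_le s0 s1 hmz
  have h4 := all_scales_strong s0 s1 (N := (N : ℤ)) (by exact_mod_cast hN) h (j + 1)
  have e1 : 2 * ((2 : ℤ) ^ (j + 1) * N) = 4 * ((2 ^ j * N : ℕ) : ℤ) := by push_cast; ring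
  have e2 : (2 : ℤ) ^ (j + 1) * N - 1 = 2 * ((2 ^ j * N : ℕ) : ℤ) - 1 := by push_cast; ring
  rw [e1, e2] at h4
  have h5 : ((1 : ℝ) / 2) ^ (2 ^ (j + 1)) ≤ (1 / 2) ^ k :=
    pow_le_pow_of_le_one (by norm_num) (by norm_num) hj2.le
  have h6 : (0 : ℝ) < (1 / 2) ^ k := by positivity
  linarith

/-- The same for the connection probabilities. -/
theorem conn_exp {p : ℝ} (p0 : 0 ≤ p) (p1 : p ≤ 1) {N : ℕ} (hN : 1 ≤ N)
    (h : 1 - fcP (1 - p) (2 * N) (N - 1) ≤ 1 / 50) (v : ℤ × ℤ) :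
    (planeP p {ω | (planeGraph ω).Reachable (0, 0) v}).toReal ≤
      (1 / 2) ^ (max v.1.natAbs v.2.natAbs / (4 * N)) := by
  have hpr := planeP_prob p0 p1
  refine le_trans ?_ (oneArm_exp p0 p1 hN h (max v.1.natAbs v.2.natAbs))
  refine ENNReal.toReal_mono (MeasureTheory.measure_ne_top _ _) (MeasureTheory.measure_mono ?_)
  intro ω hω
  refine ⟨v, ?_, hω⟩
  rcases le_total v.1.natAbs v.2.natAbs with h1 | h1
  · right; rw [max_eq_right h1, Int.abs_eq_natAbs]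
  · left; rw [max_eq_left h1, Int.abs_eq_natAbs]

/-- Two scales of squares are enough. -/
theorem oneArm_exp' {p : ℝ} (p0 : 0 ≤ p) (p1 : p ≤ 1) {n : ℕ} (hn : 1 ≤ n)
    (h1 : 1 - (1 / 1250) ^ 2 ≤ fcP (1 - p) n n)
    (h2 : 1 - (1 / 1250) ^ 2 ≤ fcP (1 - p) (2 * n) (2 * n)) (m : ℕ) :
    (planeP p {ω | OneArm m ω}).toReal ≤ (1 / 2) ^ (m / (4 * (2 * n + 1))) := by
  have s0 : 0 ≤ 1 - p := by linarith
  have s1 : 1 - p ≤ 1 := by linarith
  apply oneArm_exp p0 p1 (by omega)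
  have h3 := fcP_long' s0 s1 (δ := 1 / 1250) (by norm_num) (by norm_num) hn h1 h2 4
  have h4 := fcP_anti s0 s1 (w := ((4 : ℕ) + 2) * (n : ℤ)) (w' := 2 * ((2 * n + 1 : ℕ) : ℤ))
    (h := 2 * n) (by omega) (by push_cast; omega)
  have e1 : (((2 * n + 1 : ℕ) : ℤ) - 1) = 2 * n := by push_cast; ring
  rw [e1]
  norm_num at h3 h4 ⊢
  linarith

theorem conn_exp' {p : ℝ} (p0 : 0 ≤ p) (p1 : p ≤ 1) {n : ℕ} (hn : 1 ≤ n)
    (h1 : 1 - (1 / 1250) ^ 2 ≤ fcP (1 - p) n n)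
    (h2 : 1 - (1 / 1250) ^ 2 ≤ fcP (1 - p) (2 * n) (2 * n)) (v : ℤ × ℤ) :
    (planeP p {ω | (planeGraph ω).Reachable (0, 0) v}).toReal ≤
      (1 / 2) ^ (max v.1.natAbs v.2.natAbs / (4 * (2 * n + 1))) := by
  have hpr := planeP_prob p0 p1
  refine le_trans ?_ (oneArm_exp' p0 p1 hn h1 h2 (max v.1.natAbs v.2.natAbs))
  refine ENNReal.toReal_mono (MeasureTheory.measure_ne_top _ _) (MeasureTheory.measure_mono ?_)
  intro ω hω
  refine ⟨v, ?_, hω⟩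
  rcases le_total v.1.natAbs v.2.natAbs with h1 | h1
  · right; rw [max_eq_right h1, Int.abs_eq_natAbs]
  · left; rw [max_eq_left h1, Int.abs_eq_natAbs]

end Pool.Agent.H9.NC
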